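import Pool.Agent.W890.SF.Stm

/-!
# A fractional cover from a small matching number
-/

set_option autoImplicit false

namespace Pool.Agent.W803.SAM

open Finset Pool.Agent.W890.SF

theorem di1 (h : S_ROB) : S_DI1 := by
  intro k hk x0 c τ ε hx0 hc hτ hε
  have hθ : 0 < ε / (4 * (1 + ε)) := by positivity
  obtain ⟨n1, hn1⟩ := h k hk c τ (ε / (4 * (1 + ε))) hc hτ hθ
  obtain ⟨n2, hn2⟩ := exists_nat_ge (4 / (3 * ε * x0))
  refine ⟨max n1 n2, fun n hn F hF s hs hsn hno => ?_⟩
  by_contra hcon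
  push Not at hcon
  have h1 := hn1 (Fin n) (by rw [Fintype.card_fin]; exact (le_max_left _ _).trans hn) F hF
    ((1 + ε) * s) (by positivity) (by rw [Fintype.card_fin]; exact hsn)
    (fun y hy hys => by rw [Fintype.card_fin]; exact hcon y hy hys)
  obtain ⟨M, hMF, hM, hcard⟩ := h1
  have hn2' : (n2 : ℝ) ≤ n := by exact_mod_cast (le_max_right _ _).trans hn
  have hs1 : 4 / (3 * ε) ≤ s := by
    calc 4 / (3 * ε) = 4 / (3 * ε * x0) * x0 := by field_simp
      _ ≤ n * x0 := mul_le_mul_of_nonneg_right (hn2.trans hn2') hx0.le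
      _ = x0 * n := mul_comm _ _
      _ ≤ s := hs
  have hs2 : 1 ≤ 3 * ε / 4 * s := by
    rw [div_le_iff₀ (by positivity)] at hs1
    linarith
  have hs3 : (1 - ε / (4 * (1 + ε))) * ((1 + ε) * s) = s + 3 * ε / 4 * s := by
    field_simp
    ring
  rw [hs3] at hcard
  have hs4 : s + 1 ≤ M.card := by
    have : ((s + 1 : ℕ) : ℝ) ≤ (M.card : ℝ) := by push_cast; linarith
    exact_mod_cast this
  obtain ⟨M', hM', hM'c⟩ := Finset.exists_subset_card_eq hs4
  exact hno ⟨M', hM'.trans hMF, fun e he e' he' => hM e (hM' he) e' (hM' he'), hM'c⟩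

end Pool.Agent.W803.SAM
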